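import Pool.Agent.H73.SMD.Stmts

/-!
# Board smd, row SEQ: from filters to sequences
-/

set_option autoImplicit false

open Set Filter Topology MeasureTheory Metric

namespace Pool.SMD

open Pool.PHS Pool.LPC

theorem seq_iter {n : ℕ} {D : Set (Cn n)} {f : Cn n → Cn n} (hf : ProperSelf D f) (k : ℕ) :
    MapsTo f^[k] D D ∧ DifferentiableOn ℂ f^[k] D := by
  induction k with
  | zero => exact ⟨fun z hz => hz, differentiableOn_id⟩
  | succ k ih =>
    rw [Function.iterate_succ]
    exact ⟨ih.1.comp hf.maps, ih.2.comp hf.hol hf.maps⟩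

theorem SEQ_thm (hLIM : LIMStmt) : SEQStmt := by
  intro n D f g κ l hl hle hO hb hf hlim
  obtain ⟨M, hM⟩ := hb.exists_norm_le
  obtain ⟨_, hloc⟩ := hLIM n D l (fun j => f^[κ j]) g M hl hO (fun k => (seq_iter hf (κ k)).2)
    (fun k z hz => hM _ ((seq_iter hf (κ k)).1 hz)) hlim
  have hunif := (tendstoLocallyUniformlyOn_iff_forall_isCompact hO).1 hloc
  haveI : LocallyCompactSpace D := hO.locallyCompactSpace
  let K : CompactExhaustion D := CompactExhaustion.choice D
  have hKc : ∀ i, IsCompact (Subtype.val '' (K i)) := fun i =>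
    (K.isCompact i).image continuous_subtype_val
  have hKD : ∀ i, Subtype.val '' (K i) ⊆ D := by
    rintro i _ ⟨x, _, rfl⟩
    exact x.2
  have hP : ∀ i : ℕ, ∃ᶠ k in atTop, ∀ z ∈ Subtype.val '' (K i),
      dist (g z) (f^[κ k] z) < 1 / ((i : ℝ) + 1) := by
    intro i
    have h1 := Metric.tendstoUniformlyOn_iff.1 (hunif _ (hKD i) (hKc i)) (1 / ((i : ℝ) + 1))
      (by positivity)
    exact (h1.frequently).filter_mono hle
  obtain ⟨φ, hφ, hφ'⟩ := extraction_forall_of_frequently hP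
  refine ⟨φ, hφ, fun z hz => ?_⟩
  obtain ⟨i₀, hi₀⟩ := K.exists_mem ⟨z, hz⟩
  rw [tendsto_iff_dist_tendsto_zero]
  refine squeeze_zero' (Eventually.of_forall fun _ => dist_nonneg) ?_
    tendsto_one_div_add_atTop_nhds_zero_nat
  filter_upwards [eventually_ge_atTop i₀] with i hi
  rw [dist_comm]
  exact (hφ' i z ⟨⟨z, hz⟩, K.subset hi hi₀, rfl⟩).le

end Pool.SMD
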